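import Pool.Agent.R230.HZ.Defs

/-! Pieces C1 and C2 of the project HZ (MP_a2ab48_an). -/

namespace Pool.Agent.R230.HZ

open Metric Set

namespace C

section maps

variable {n m : ℕ} (σ : Fin m → Fin n) (a : Fin m → ℝ)

/-- weighted coordinates -/
noncomputable def mapA : E n →ₗ[ℝ] E m where
  toFun x := WithLp.toLp 2 (fun i => a i * x (σ i))
  map_add' x y := by ext i; simp [mul_add]
  map_smul' c x := by ext i; simp; ring

/-- right inverse of `mapA` -/
noncomputable def mapR : E m →ₗ[ℝ] E n where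
  toFun u := WithLp.toLp 2 (fun j => ∑ i, if σ i = j then (a i)⁻¹ * u i else 0)
  map_add' x y := by
    ext j
    simp only [PiLp.add_apply, ← Finset.sum_add_distrib]
    refine Finset.sum_congr rfl fun i _ => ?_
    split_ifs <;> simp [mul_add]
  map_smul' c x := by
    ext j
    simp only [PiLp.smul_apply, smul_eq_mul, RingHom.id_apply, Finset.mul_sum]
    refine Finset.sum_congr rfl fun i _ => ?_
    split_ifs <;> ring

theorem mapA_apply (x : E n) (i : Fin m) : mapA σ a x i = a i * x (σ i) := rfl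

theorem mapR_apply (u : E m) (j : Fin n) :
    mapR σ a u j = ∑ i, if σ i = j then (a i)⁻¹ * u i else 0 := rfl

theorem mapA_mapR (hσ : Function.Injective σ) (ha : ∀ i, a i ≠ 0) (u : E m) :
    mapA σ a (mapR σ a u) = u := by
  ext i
  rw [mapA_apply, mapR_apply, Finset.sum_eq_single i]
  · rw [if_pos rfl, ← mul_assoc, mul_inv_cancel₀ (ha i), one_mul]
  · intro j _ hj
    rw [if_neg (fun h => hj (hσ h))]
  · intro h
    exact absurd (Finset.mem_univ i) h

theorem mapA_mapR_zero {k : ℕ} (τ : Fin k → Fin n) (b : Fin k → ℝ) (h : ∀ i j, σ i ≠ τ j)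
    (u : E k) : mapA σ a (mapR τ b u) = 0 := by
  ext i
  rw [mapA_apply, mapR_apply, Finset.sum_eq_zero]
  · simp
  · intro j _
    rw [if_neg (fun h' => h i j h'.symm)]

end maps

theorem exists_eta {m : ℕ} (hm : 2 ≤ m) (u u' : E m) :
    ∃ η : E m, ‖η‖ = 1 ∧ 0 ≤ inner ℝ η u ∧ 0 ≤ inner ℝ η u' := by
  -- a unit vector orthogonal to `u`
  obtain ⟨w, hw1, hw2⟩ : ∃ w : E m, ‖w‖ = 1 ∧ inner ℝ w u = 0 := by
    let i0 : Fin m := ⟨0, by omega⟩
    let i1 : Fin m := ⟨1, by omega⟩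
    have h01 : i0 ≠ i1 := by
      intro h
      have := congrArg Fin.val h
      simp [i0, i1] at this
    by_cases h0 : u i0 = 0
    · refine ⟨EuclideanSpace.single i0 (1:ℝ), by simp, ?_⟩
      rw [EuclideanSpace.inner_single_left]
      simp [h0]
    · let w' : E m := EuclideanSpace.single i0 (-(u i1)) + EuclideanSpace.single i1 (u i0)
      have hw' : w' ≠ 0 := by
        intro h
        have h2 : w' i1 = 0 := by rw [h]; rfl
        simp [w', h01.symm] at h2
        exact h0 h2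
      have hin : inner ℝ w' u = 0 := by
        simp only [w', inner_add_left, EuclideanSpace.inner_single_left]
        simp
        ring
      refine ⟨(‖w'‖)⁻¹ • w', ?_, ?_⟩
      · rw [norm_smul, norm_inv, norm_norm, inv_mul_cancel₀ (norm_ne_zero_iff.2 hw')]
      · rw [inner_smul_left, hin, mul_zero]
  rcases le_total 0 (inner ℝ w u') with h | h
  · exact ⟨w, hw1, hw2.ge, h⟩
  · exact ⟨-w, by rw [norm_neg, hw1], by rw [inner_neg_left, hw2, neg_zero],
      by rw [inner_neg_left]; linarith⟩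

theorem bound {n m : ℕ} (A : E n →ₗ[ℝ] E m) : ∃ K : ℝ, 0 ≤ K ∧ ∀ x, ‖A x‖ ≤ K * ‖x‖ :=
  ⟨‖LinearMap.toContinuousLinearMap A‖, norm_nonneg _, fun x =>
    (LinearMap.toContinuousLinearMap A).le_opNorm x⟩

theorem nta (h : NtaCone) {n m k : ℕ} (hm : 2 ≤ m) (hk : 1 ≤ k) (σ : Fin m → Fin n)
    (τ : Fin k → Fin n) (a : Fin m → ℝ) (b : Fin k → ℝ) (hσ : Function.Injective σ)
    (hτ : Function.Injective τ) (hστ : ∀ i j, σ i ≠ τ j) (ha : ∀ i, a i ≠ 0)
    (hb : ∀ i, b i ≠ 0) : IsNTA {x : E n | ‖mapA τ b x‖ < ‖mapA σ a x‖} := by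
  obtain ⟨K1, h1, hK1⟩ := bound (mapA σ a)
  obtain ⟨K2, h2, hK2⟩ := bound (mapA τ b)
  obtain ⟨K3, h3, hK3⟩ := bound (mapR σ a)
  obtain ⟨K4, h4, hK4⟩ := bound (mapR τ b)
  refine h n (E m) (E k) (mapA σ a) (mapA τ b) (mapR σ a) (mapR τ b) (1 + K1 + K2 + K3 + K4)
    (by linarith) (fun x => (hK1 x).trans ?_) (fun x => (hK2 x).trans ?_)
    (fun x => (hK3 x).trans ?_) (fun x => (hK4 x).trans ?_)
    (mapA_mapR σ a hσ ha) (mapA_mapR_zero τ b σ a (fun i j => (hστ j i).symm))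
    (mapA_mapR τ b hτ hb) (mapA_mapR_zero σ a τ b hστ)
    (exists_eta hm) ⟨EuclideanSpace.single ⟨0, hk⟩ (1:ℝ), by simp⟩
  all_goals
    apply mul_le_mul_of_nonneg_right _ (norm_nonneg _)
    linarith

theorem norm_mapA_sq {n m : ℕ} (σ : Fin m → Fin n) (a : Fin m → ℝ) (x : E n) :
    ‖mapA σ a x‖ ^ 2 = ∑ i, (a i * x (σ i)) ^ 2 := by
  rw [EuclideanSpace.norm_sq_eq]
  refine Finset.sum_congr rfl fun i _ => ?_
  rw [mapA_apply, Real.norm_eq_abs, sq_abs]

theorem sets (h : NtaCone) {m : ℕ} (hm : 2 ≤ m) (σ : Fin m → Fin 5) (a : Fin m → ℝ) (t : ℝ)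
    (ht : 0 ≤ t) (hσ : Function.Injective σ) (ha : ∀ i, a i ≠ 0)
    (hσ2 : ∀ i, σ i ≠ 2) (hσ3 : ∀ i, σ i ≠ 3)
    (hsum : ∀ x : E 5, ∑ i, (a i * x (σ i)) ^ 2 = x 0 ^ 2 + x 1 ^ 2 + t * x 4 ^ 2) :
    IsNTA (posSet (P t)) ∧ IsNTA (negSet (P t)) := by
  let τ : Fin 2 → Fin 5 := ![2, 3]
  let b : Fin 2 → ℝ := fun _ => √(1 + t / 2)
  have hτ : Function.Injective τ := by
    intro i j hij
    fin_cases i <;> fin_cases j <;> simp [τ] at hij ⊢
  have hb : ∀ i, b i ≠ 0 := fun i => (Real.sqrt_pos.2 (by linarith)).ne'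
  have hστ : ∀ i j, σ i ≠ τ j := by
    intro i j
    fin_cases j
    · exact hσ2 i
    · exact hσ3 i
  have hB : ∀ x : E 5, ‖mapA τ b x‖ ^ 2 = (1 + t / 2) * (x 2 ^ 2 + x 3 ^ 2) := by
    intro x
    rw [norm_mapA_sq, Fin.sum_univ_two]
    simp only [b, τ, mul_pow, Real.sq_sqrt (by linarith : (0:ℝ) ≤ 1 + t / 2)]
    simp
    ring
  have hA : ∀ x : E 5, ‖mapA σ a x‖ ^ 2 = x 0 ^ 2 + x 1 ^ 2 + t * x 4 ^ 2 := by
    intro x
    rw [norm_mapA_sq, hsum]
  have e1 : posSet (P t) = {x : E 5 | ‖mapA τ b x‖ < ‖mapA σ a x‖} := by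
    ext x
    simp only [posSet, mem_ofPred_eq, eval_P]
    rw [← pow_lt_pow_iff_left₀ (norm_nonneg _) (norm_nonneg _) two_ne_zero, hA, hB, sub_pos]
  have e2 : negSet (P t) = {x : E 5 | ‖mapA σ a x‖ < ‖mapA τ b x‖} := by
    ext x
    simp only [negSet, mem_ofPred_eq, eval_P]
    rw [← pow_lt_pow_iff_left₀ (norm_nonneg _) (norm_nonneg _) two_ne_zero, hA, hB, sub_neg]
  rw [e1, e2]
  exact ⟨nta h hm (by norm_num) σ τ a b hσ hτ hστ ha hb,
    nta h le_rfl (by omega) τ σ b a hτ hσ (fun i j => (hστ j i).symm) hb ha⟩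

theorem P_mem_V (t : ℝ) : P t ∈ V 5 2 := by
  constructor
  · unfold P
    have hX : ∀ i : Fin 5, (MvPolynomial.X i ^ 2 : MvPolynomial (Fin 5) ℝ).IsHomogeneous 2 :=
      fun i => MvPolynomial.isHomogeneous_X_pow i 2
    refine MvPolynomial.IsHomogeneous.sub (((hX 0).add (hX 1)).add ((hX 4).C_mul t))
      (((hX 2).add (hX 3)).C_mul _)
  · have e1 : (MvPolynomial.C t : MvPolynomial (Fin 5) ℝ) = 2 * MvPolynomial.C (t / 2) := by
      rw [← map_ofNat (MvPolynomial.C : ℝ →+* MvPolynomial (Fin 5) ℝ) 2, ← map_mul]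
      congr 1
      ring
    have h2 : ∀ i, MvPolynomial.pderiv i (2 : MvPolynomial (Fin 5) ℝ) = 0 := fun i => by
      rw [← map_ofNat (MvPolynomial.C : ℝ →+* MvPolynomial (Fin 5) ℝ) 2, MvPolynomial.pderiv_C]
    rw [Fin.sum_univ_five]
    simp only [P, e1, MvPolynomial.C_add, MvPolynomial.C_1]
    simp [MvPolynomial.pderiv_X, Derivation.leibniz_pow, h2]
    ring

end C

theorem pathInH (h : NtaCone) : PathInH := by
  intro t ht0 ht1
  refine ⟨C.P_mem_V t, ?_⟩
  rcases ht0.eq_or_lt with rfl | ht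
  · refine C.sets h (m := 2) le_rfl ![0, 1] ![1, 1] 0 le_rfl ?_ ?_ ?_ ?_ ?_
    · intro i j hij
      fin_cases i <;> fin_cases j <;> simp at hij ⊢
    · intro i; fin_cases i <;> simp
    · intro i; fin_cases i <;> simp
    · intro i; fin_cases i <;> simp
    · intro x
      rw [Fin.sum_univ_two]
      simp
  · refine C.sets h (m := 3) (by norm_num) ![0, 1, 4] ![1, 1, √t] t ht.le ?_ ?_ ?_ ?_ ?_
    · intro i j hij
      fin_cases i <;> fin_cases j <;> simp at hij ⊢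
    · have := (Real.sqrt_pos.2 ht).ne'
      intro i; fin_cases i <;> simp [this]
    · intro i; fin_cases i <;> simp
    · intro i; fin_cases i <;> simp
    · intro x
      rw [Fin.sum_univ_three]
      simp [mul_pow, Real.sq_sqrt ht.le]

theorem sameComp (h : PathInH) : SameComp := by
  refine ⟨h 0 le_rfl zero_le_one, h 1 zero_le_one le_rfl, ?_⟩
  let _ := coeffTop 5
  have hcont : Continuous P := by
    have hP : ∀ t, P t = (MvPolynomial.X 0 ^ 2 + MvPolynomial.X 1 ^ 2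
        - (MvPolynomial.X 2 ^ 2 + MvPolynomial.X 3 ^ 2)) +
        MvPolynomial.C t * (MvPolynomial.X 4 ^ 2
          - MvPolynomial.C (1 / 2) * (MvPolynomial.X 2 ^ 2 + MvPolynomial.X 3 ^ 2)) := by
      intro t
      have e1 : (MvPolynomial.C (1 + t / 2) : MvPolynomial (Fin 5) ℝ) =
          1 + MvPolynomial.C t * MvPolynomial.C (1 / 2) := by
        rw [← MvPolynomial.C_mul, ← MvPolynomial.C_1, ← MvPolynomial.C_add]
        congr 1
        ring
      unfold P
      rw [e1]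
      ring
    refine continuous_induced_rng.2 (continuous_pi fun m => ?_)
    have : ∀ t, (P t).coeff m = _ := fun t => by
      rw [hP t, MvPolynomial.coeff_add, MvPolynomial.coeff_C_mul]
    change Continuous fun t => (P t).coeff m
    simp_rw [this]
    exact continuous_const.add (continuous_id.mul continuous_const)
  have hpre : IsPreconnected (P '' Icc (0:ℝ) 1) := isPreconnected_Icc.image _ hcont.continuousOn
  have hsub : P '' Icc (0:ℝ) 1 ⊆ H 5 2 := by
    rintro _ ⟨t, ht, rfl⟩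
    exact h t ht.1 ht.2
  exact hpre.subset_connectedComponentIn ⟨0, by simp, rfl⟩ hsub ⟨1, by simp, rfl⟩

end Pool.Agent.R230.HZ
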