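import Mathlib

/-!
# Two-sided NTA harmonic polynomials and bi-Lipschitz equivalence of their zero sets
Definitions for problem MP_a2ab48_an.
-/

namespace Pool.Agent.R230.HZ

open Metric Set

/-- Euclidean space of dimension `n`. -/
abbrev E (n : ℕ) := EuclideanSpace ℝ (Fin n)

/-- Distance between two sets. -/
noncomputable def setDist {n : ℕ} (A B : Set (E n)) : ℝ :=
  sInf {t : ℝ | ∃ a ∈ A, ∃ b ∈ B, t = dist a b}

/-- `Ω` is an NTA domain (Jerison and Kenig): an open connected nonempty set with a constant `M > 1`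
for which the two-sided corkscrew condition (at all boundary points and all scales) and the
Harnack chain condition hold. The chain consists of the `N + 1` balls `ball (c i) (ρ i)`,
`0 ≤ i ≤ N`. -/
structure IsNTA {n : ℕ} (Ω : Set (E n)) : Prop where
  isOpen : IsOpen Ω
  connected : IsConnected Ω
  exists_const : ∃ M : ℝ, 1 < M ∧
    (∀ Q ∈ frontier Ω, ∀ r : ℝ, 0 < r →
      ∃ A ∈ Ω, ∃ A' ∈ (closure Ω)ᶜ, dist A Q < r ∧ dist A' Q < r ∧
        r / M < infDist A (frontier Ω) ∧ r / M < infDist A' (frontier Ω)) ∧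
    (∀ ε : ℝ, 0 < ε → ∀ k : ℕ, 1 ≤ k → ∀ x ∈ Ω, ∀ y ∈ Ω,
      ε < infDist x (frontier Ω) → ε < infDist y (frontier Ω) → dist x y < 2 ^ k * ε →
      ∃ (N : ℕ) (c : ℕ → E n) (ρ : ℕ → ℝ), (N + 1 : ℝ) ≤ M * k ∧
        (∀ i ≤ N, 0 < ρ i ∧ ball (c i) (ρ i) ⊆ Ω ∧
          M⁻¹ * diam (ball (c i) (ρ i)) ≤ setDist (ball (c i) (ρ i)) (frontier Ω) ∧
          setDist (ball (c i) (ρ i)) (frontier Ω) ≤ M * diam (ball (c i) (ρ i))) ∧
        (∀ i < N, (ball (c i) (ρ i) ∩ ball (c (i + 1)) (ρ (i + 1))).Nonempty) ∧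
        x ∈ ball (c 0) (ρ 0) ∧ y ∈ ball (c N) (ρ N))

/-- Homogeneous harmonic polynomials of degree `d` in `n` variables. -/
def V (n d : ℕ) : Set (MvPolynomial (Fin n) ℝ) :=
  {p | p.IsHomogeneous d ∧
    ∑ i : Fin n, MvPolynomial.pderiv i (MvPolynomial.pderiv i p) = 0}

/-- The topology of coefficientwise convergence; on the finite-dimensional space `V n d` it is the
norm topology. -/
@[reducible] def coeffTop (n : ℕ) : TopologicalSpace (MvPolynomial (Fin n) ℝ) :=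
  TopologicalSpace.induced (fun p => fun m : Fin n →₀ ℕ => p.coeff m) inferInstance

/-- The set where `p` is positive. -/
def posSet {n : ℕ} (p : MvPolynomial (Fin n) ℝ) : Set (E n) :=
  {x | 0 < MvPolynomial.eval (fun i => x i) p}

/-- The set where `p` is negative. -/
def negSet {n : ℕ} (p : MvPolynomial (Fin n) ℝ) : Set (E n) :=
  {x | MvPolynomial.eval (fun i => x i) p < 0}

/-- The zero set of `p`. -/
def zeroSet {n : ℕ} (p : MvPolynomial (Fin n) ℝ) : Set (E n) :=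
  {x | MvPolynomial.eval (fun i => x i) p = 0}

/-- The homogeneous harmonic polynomials of degree `d` whose positive and negative sets are both
NTA domains. -/
def H (n d : ℕ) : Set (MvPolynomial (Fin n) ℝ) :=
  {p | p ∈ V n d ∧ IsNTA (posSet p) ∧ IsNTA (negSet p)}

/-- `p` and `q` lie in the same connected component of `H n d`. -/
def SameComponent (n d : ℕ) (p q : MvPolynomial (Fin n) ℝ) : Prop :=
  p ∈ H n d ∧ q ∈ H n d ∧ q ∈ @connectedComponentIn _ (coeffTop n) (H n d) p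

/-- Bi-Lipschitz equivalence of two subsets of Euclidean space. -/
def BiLipEquiv {n : ℕ} (A B : Set (E n)) : Prop :=
  ∃ f : A ≃ B, ∃ L : ℝ, 1 ≤ L ∧ ∀ x y : A,
    L⁻¹ * dist x y ≤ dist (f x) (f y) ∧ dist (f x) (f y) ≤ L * dist x y

/-- The path `P t = x0^2 + x1^2 + t x4^2 - (1 + t/2) (x2^2 + x3^2)` of harmonic quadratic forms
on five-dimensional space. -/
noncomputable def P (t : ℝ) : MvPolynomial (Fin 5) ℝ :=
  MvPolynomial.X 0 ^ 2 + MvPolynomial.X 1 ^ 2 + MvPolynomial.C t * MvPolynomial.X 4 ^ 2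
    - MvPolynomial.C (1 + t / 2) * (MvPolynomial.X 2 ^ 2 + MvPolynomial.X 3 ^ 2)

theorem eval_P (t : ℝ) (x : E 5) : MvPolynomial.eval (fun i => x i) (P t) =
    x 0 ^ 2 + x 1 ^ 2 + t * x 4 ^ 2 - (1 + t / 2) * (x 2 ^ 2 + x 3 ^ 2) := by
  simp [P]

/-! ## Pieces (exact statements)

* `NtaCone` : the abstract NTA lemma.
* `PathInH` : all `P t`, `0 ≤ t ≤ 1`, lie in `H 5 2` (uses `NtaCone`).
* `SameComp` : `P 0` and `P 1` lie in the same component (uses `PathInH`).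
* `NotBiLip` : the zero sets of `P 0` and `P 1` are not bi-Lipschitz equivalent. -/

/-- Statement of piece N. -/
def NtaCone : Prop :=
  ∀ (n : ℕ) (U V : Type) [NormedAddCommGroup U] [InnerProductSpace ℝ U]
    [NormedAddCommGroup V] [InnerProductSpace ℝ V]
    (A : E n →ₗ[ℝ] U) (B : E n →ₗ[ℝ] V) (R : U →ₗ[ℝ] E n) (S : V →ₗ[ℝ] E n) (C : ℝ),
    1 ≤ C → (∀ x, ‖A x‖ ≤ C * ‖x‖) → (∀ x, ‖B x‖ ≤ C * ‖x‖) →
    (∀ u, ‖R u‖ ≤ C * ‖u‖) → (∀ v, ‖S v‖ ≤ C * ‖v‖) →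
    (∀ u, A (R u) = u) → (∀ u, B (R u) = 0) → (∀ v, B (S v) = v) → (∀ v, A (S v) = 0) →
    (∀ u u' : U, ∃ η : U, ‖η‖ = 1 ∧ 0 ≤ inner ℝ η u ∧ 0 ≤ inner ℝ η u') →
    (∃ v : V, ‖v‖ = 1) →
    IsNTA {x : E n | ‖B x‖ < ‖A x‖}

/-- Statement of piece C1. -/
def PathInH : Prop := ∀ t : ℝ, 0 ≤ t → t ≤ 1 → P t ∈ H 5 2

/-- Statement of piece C2. -/
def SameComp : Prop := SameComponent 5 2 (P 0) (P 1)

/-- Statement of piece T. -/
def NotBiLip : Prop := ¬ BiLipEquiv (zeroSet (P 0)) (zeroSet (P 1))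

end Pool.Agent.R230.HZ
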