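import Pool.Agent.R230.HZ.Defs

/-!
# The abstract NTA lemma for quadratic cones (piece N of MP_a2ab48_an)
-/

namespace Pool.Agent.R230.HZ.N

open Metric Set Pool.Agent.R230.HZ

structure Hyp {n : ℕ} {U V : Type} [NormedAddCommGroup U] [InnerProductSpace ℝ U]
    [NormedAddCommGroup V] [InnerProductSpace ℝ V]
    (A : E n →ₗ[ℝ] U) (B : E n →ₗ[ℝ] V) (R : U →ₗ[ℝ] E n) (S : V →ₗ[ℝ] E n) (C : ℝ) : Prop where
  hC : 1 ≤ C
  hA : ∀ x, ‖A x‖ ≤ C * ‖x‖
  hB : ∀ x, ‖B x‖ ≤ C * ‖x‖
  hR : ∀ u, ‖R u‖ ≤ C * ‖u‖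
  hS : ∀ v, ‖S v‖ ≤ C * ‖v‖
  hAR : ∀ u, A (R u) = u
  hBR : ∀ u, B (R u) = 0
  hBS : ∀ v, B (S v) = v
  hAS : ∀ v, A (S v) = 0
  hη : ∀ u u' : U, ∃ η : U, ‖η‖ = 1 ∧ 0 ≤ inner ℝ η u ∧ 0 ≤ inner ℝ η u'
  hV : ∃ v : V, ‖v‖ = 1

section

variable {n : ℕ} {U V : Type} [NormedAddCommGroup U] [InnerProductSpace ℝ U]
    [NormedAddCommGroup V] [InnerProductSpace ℝ V]
    {A : E n →ₗ[ℝ] U} {B : E n →ₗ[ℝ] V} {R : U →ₗ[ℝ] E n} {S : V →ₗ[ℝ] E n} {C : ℝ}

/-- The defining function. -/
def gg (A : E n →ₗ[ℝ] U) (B : E n →ₗ[ℝ] V) (x : E n) : ℝ := ‖A x‖ - ‖B x‖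

def Om (A : E n →ₗ[ℝ] U) (B : E n →ₗ[ℝ] V) : Set (E n) := {x | ‖B x‖ < ‖A x‖}

theorem mem_Om (x : E n) : x ∈ Om A B ↔ 0 < gg A B x := by
  unfold Om gg; simp [sub_pos]

theorem A_lip (h : Hyp A B R S C) (x y : E n) : ‖A x - A y‖ ≤ C * dist x y := by
  rw [← map_sub, dist_eq_norm]; exact h.hA _

theorem B_lip (h : Hyp A B R S C) (x y : E n) : ‖B x - B y‖ ≤ C * dist x y := by
  rw [← map_sub, dist_eq_norm]; exact h.hB _

theorem g_lip (h : Hyp A B R S C) (x y : E n) : gg A B x - gg A B y ≤ 2 * C * dist x y := by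
  have h1 := A_lip h x y
  have h2 := B_lip h x y
  have h3 : ‖A x‖ - ‖A y‖ ≤ ‖A x - A y‖ := norm_sub_norm_le _ _
  have h4 : ‖B y‖ - ‖B x‖ ≤ ‖B y - B x‖ := norm_sub_norm_le _ _
  rw [norm_sub_rev] at h4
  unfold gg
  linarith

theorem contA (_h : Hyp A B R S C) : Continuous fun x => A x :=
  A.continuous_of_finiteDimensional

theorem contB (_h : Hyp A B R S C) : Continuous fun x => B x :=
  B.continuous_of_finiteDimensional

theorem frontier_zero (h : Hyp A B R S C) {z : E n} (hz : z ∈ frontier (Om A B)) :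
    gg A B z = 0 := by
  have h1 := frontier_lt_subset_eq (contB h).norm (contA h).norm hz
  simp only [Set.mem_ofPred_eq] at h1
  unfold gg; linarith

theorem isOpen_Om (h : Hyp A B R S C) : IsOpen (Om A B) :=
  isOpen_lt (contB h).norm (contA h).norm

/-- The distance of a point to the frontier, from below. -/
theorem dist_frontier_ge (h : Hyp A B R S C) (x : E n) {z : E n} (hz : z ∈ frontier (Om A B)) :
    |gg A B x| ≤ 2 * C * dist x z := by
  have h0 := frontier_zero h hz
  have h1 := g_lip h x z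
  have h2 := g_lip h z x
  rw [dist_comm z x] at h2
  rw [abs_le]; constructor <;> linarith

/-- A frontier point near a point of the domain. -/
theorem exists_frontier (h : Hyp A B R S C) {x : E n} (hx : x ∈ Om A B) :
    ∃ z ∈ frontier (Om A B), dist x z ≤ C * gg A B x := by
  have hg : 0 < gg A B x := (mem_Om x).1 hx
  obtain ⟨v, hv, hBv⟩ : ∃ v : V, ‖v‖ = 1 ∧ B x = ‖B x‖ • v := by
    by_cases h0 : B x = 0
    · obtain ⟨v, hv⟩ := h.hV
      exact ⟨v, hv, by simp [h0]⟩
    · refine ⟨‖B x‖⁻¹ • B x, ?_, ?_⟩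
      · rw [norm_smul, norm_inv, norm_norm, inv_mul_cancel₀ (norm_ne_zero_iff.2 h0)]
      · rw [smul_smul, mul_inv_cancel₀ (norm_ne_zero_iff.2 h0), one_smul]
  set z := x + S (gg A B x • v) with hz
  have hBz : B z = ‖A x‖ • v := by
    rw [hz, map_add, h.hBS]
    nth_rewrite 1 [hBv]
    rw [← add_smul]
    congr 1
    unfold gg; ring
  have hAz : A z = A x := by rw [hz, map_add, h.hAS, add_zero]
  have hzn : z ∉ Om A B := by
    rw [mem_Om]
    unfold gg
    rw [hBz, hAz, norm_smul, hv, norm_norm]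
    simp
  have hdz : dist x z ≤ C * gg A B x := by
    rw [hz, dist_eq_norm, sub_add_cancel_left, norm_neg]
    refine (h.hS _).trans (le_of_eq ?_)
    rw [norm_smul, hv, Real.norm_of_nonneg hg.le]; ring
  refine ⟨z, ⟨?_, ?_⟩, hdz⟩
  · rw [Metric.mem_closure_iff]
    intro δ hδ
    have hC := h.hC
    set τ := min (gg A B x) (δ / (2 * C)) with hτ
    have hτ0 : 0 < τ := lt_min hg (by positivity)
    have hτ1 : τ ≤ gg A B x := min_le_left _ _
    have hτ2 : τ ≤ δ / (2 * C) := min_le_right _ _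
    refine ⟨z - S (τ • v), ?_, ?_⟩
    · rw [mem_Om]
      unfold gg
      rw [map_sub, map_sub, h.hBS, h.hAS, hBz, hAz, sub_zero, ← sub_smul, norm_smul, hv]
      have h1 : gg A B x ≤ ‖A x‖ := by
        unfold gg; have := norm_nonneg (B x); linarith
      rw [Real.norm_of_nonneg (by linarith)]
      linarith
    · rw [dist_eq_norm, sub_sub_cancel]
      refine lt_of_le_of_lt (h.hS _) ?_
      rw [norm_smul, hv, Real.norm_of_nonneg hτ0.le, mul_one]
      calc C * τ ≤ C * (δ / (2 * C)) := by gcongr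
        _ = δ / 2 := by field_simp
        _ < δ := by linarith
  · rw [(isOpen_Om h).interior_eq]; exact hzn

theorem ball_sub (h : Hyp A B R S C) {z : E n} :
    ball z (gg A B z / (4 * C)) ⊆ Om A B := by
  intro w hw
  have hC := h.hC
  rw [mem_ball] at hw
  have hz : 0 < gg A B z := by
    by_contra hcon
    push Not at hcon
    have h1 : gg A B z / (4 * C) ≤ 0 := div_nonpos_of_nonpos_of_nonneg hcon (by positivity)
    have := dist_nonneg (x := w) (y := z)
    linarith
  rw [mem_Om]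
  have h1 := g_lip h z w
  rw [dist_comm] at h1
  have h2 : 2 * C * dist w z < 2 * C * (gg A B z / (4 * C)) := by
    have : (0:ℝ) < 2 * C := by linarith
    exact mul_lt_mul_of_pos_left hw this
  have h3 : 2 * C * (gg A B z / (4 * C)) = gg A B z / 2 := by field_simp; norm_num
  rw [h3] at h2
  linarith

theorem ball_props (h : Hyp A B R S C) {z : E n} (hz : z ∈ Om A B) {M : ℝ} (hM : 16 * C ^ 2 ≤ M) :
    0 < gg A B z / (4 * C) ∧ ball z (gg A B z / (4 * C)) ⊆ Om A B ∧
      M⁻¹ * diam (ball z (gg A B z / (4 * C))) ≤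
        setDist (ball z (gg A B z / (4 * C))) (frontier (Om A B)) ∧
      setDist (ball z (gg A B z / (4 * C))) (frontier (Om A B)) ≤
        M * diam (ball z (gg A B z / (4 * C))) := by
  have hC := h.hC
  have hg : 0 < gg A B z := (mem_Om z).1 hz
  set ρ := gg A B z / (4 * C) with hρ
  have hρ0 : 0 < ρ := by positivity
  have hgρ : gg A B z = 4 * C * ρ := by rw [hρ]; field_simp
  have hC2 : 1 ≤ C ^ 2 := one_le_pow₀ hC
  have hM0 : 0 < M := by linarith
  obtain ⟨b, hb, hdb⟩ := exists_frontier h hz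
  refine ⟨hρ0, ball_sub h, ?_, ?_⟩
  · have h1 : M⁻¹ * diam (ball z ρ) ≤ ρ := by
      have h2 : diam (ball z ρ) ≤ 2 * ρ := diam_ball hρ0.le
      rw [inv_mul_le_iff₀ hM0]
      nlinarith
    refine h1.trans ?_
    apply le_csInf
    · exact ⟨dist z b, z, mem_ball_self hρ0, b, hb, rfl⟩
    · rintro t ⟨a, ha, b', hb', rfl⟩
      have h3 := dist_frontier_ge h a hb'
      have h4 := g_lip h z a
      rw [mem_ball, dist_comm] at ha
      have h5 : 2 * C * dist z a ≤ 2 * C * ρ := by gcongr
      have h6 : gg A B a ≤ |gg A B a| := le_abs_self _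
      have h7 : 2 * C * ρ ≤ 2 * C * dist a b' := by
        rw [hgρ] at h4
        linarith
      have h8 : (0:ℝ) < 2 * C := by linarith
      exact le_of_mul_le_mul_left h7 h8
  · have h1 : setDist (ball z ρ) (frontier (Om A B)) ≤ dist z b := by
      apply csInf_le
      · exact ⟨0, by rintro t ⟨a, _, b', _, rfl⟩; exact dist_nonneg⟩
      · exact ⟨z, mem_ball_self hρ0, b, hb, rfl⟩
    obtain ⟨u, hu, -, -⟩ := h.hη 0 0
    have hRu : R u ≠ 0 := by
      intro h0
      have := h.hAR u
      rw [h0, map_zero] at this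
      rw [← this, norm_zero] at hu
      exact zero_ne_one hu
    have hRn : 0 < ‖R u‖ := norm_pos_iff.2 hRu
    have h2 : ρ / 2 ≤ diam (ball z ρ) := by
      have h3 : z + (ρ / 2 * ‖R u‖⁻¹) • R u ∈ ball z ρ := by
        rw [mem_ball, dist_eq_norm, add_sub_cancel_left, norm_smul,
          Real.norm_of_nonneg (by positivity), mul_assoc, inv_mul_cancel₀ hRn.ne']
        linarith
      have h4 := dist_le_diam_of_mem isBounded_ball h3 (mem_ball_self hρ0)
      rw [dist_eq_norm, add_sub_cancel_left, norm_smul,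
          Real.norm_of_nonneg (by positivity), mul_assoc, inv_mul_cancel₀ hRn.ne'] at h4
      linarith
    calc setDist (ball z ρ) (frontier (Om A B)) ≤ dist z b := h1
      _ ≤ C * gg A B z := hdb
      _ = 8 * C ^ 2 * (ρ / 2) := by rw [hgρ]; ring
      _ ≤ M * (ρ / 2) := by
          have : 8 * C ^ 2 ≤ M := by linarith
          gcongr
      _ ≤ M * diam (ball z ρ) := by gcongr

/-- Chains of points of the domain, consecutive ones in a common admissible ball. -/
inductive Ch (A : E n →ₗ[ℝ] U) (B : E n →ₗ[ℝ] V) (C : ℝ) : ℕ → E n → E n → Prop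
  | refl (x : E n) (hx : 0 < gg A B x) : Ch A B C 0 x x
  | step (m : ℕ) (x y z : E n) (h : Ch A B C m x y) (hz : 0 < gg A B z)
      (hs : dist y z < gg A B y / (4 * C) ∨ dist y z < gg A B z / (4 * C)) : Ch A B C (m + 1) x z

theorem Ch.right {m : ℕ} {x y : E n} (h : Ch A B C m x y) : 0 < gg A B y := by
  cases h with
  | refl x hx => exact hx
  | step m x y z h hz hs => exact hz

theorem Ch.left {m : ℕ} {x y : E n} (h : Ch A B C m x y) : 0 < gg A B x := by
  induction h with
  | refl x hx => exact hx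
  | step m x y z h hz hs ih => exact ih

theorem Ch.trans {m m' : ℕ} {x y z : E n} (h : Ch A B C m x y) (h' : Ch A B C m' y z) :
    Ch A B C (m + m') x z := by
  induction h' with
  | refl y hy => exact h
  | step m' y w z h' hz hs ih => exact Ch.step _ _ _ _ (ih h) hz hs

theorem Ch.one {x y : E n} (hx : 0 < gg A B x) (hy : 0 < gg A B y)
    (hs : dist x y < gg A B x / (4 * C) ∨ dist x y < gg A B y / (4 * C)) : Ch A B C 1 x y :=
  Ch.step 0 x x y (Ch.refl x hx) hy hs

theorem Ch.symm {m : ℕ} {x y : E n} (h : Ch A B C m x y) : Ch A B C m y x := by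
  induction h with
  | refl x hx => exact Ch.refl x hx
  | step m x y z h hz hs ih =>
    have h1 : Ch A B C 1 z y := Ch.one hz h.right (by rw [dist_comm z y]; exact hs.symm)
    rw [add_comm]
    exact h1.trans ih

theorem Ch.seq {m : ℕ} {x y : E n} (h : Ch A B C m x y) :
    ∃ c : ℕ → E n, c 0 = x ∧ c m = y ∧ (∀ i ≤ m, 0 < gg A B (c i)) ∧
      ∀ i < m, dist (c i) (c (i + 1)) < gg A B (c i) / (4 * C) ∨
        dist (c i) (c (i + 1)) < gg A B (c (i + 1)) / (4 * C) := by
  induction h with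
  | refl x hx => exact ⟨fun _ => x, rfl, rfl, fun _ _ => hx, fun i hi => absurd hi (by omega)⟩
  | step m x y z h hz hs ih =>
    obtain ⟨c, h0, hm, h1, h2⟩ := ih
    refine ⟨fun i => if i ≤ m then c i else z, by simp [h0], by simp, ?_, ?_⟩
    · intro i _
      by_cases him : i ≤ m
      · simp only [him, if_true]; exact h1 i him
      · simp only [him, if_false]; exact hz
    · intro i hi
      by_cases him : i < m
      · have e1 : i ≤ m := him.le
        have e2 : i + 1 ≤ m := him
        simp only [e1, e2, if_true]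
        exact h2 i him
      · have e0 : i = m := by omega
        subst e0
        simp only [le_refl, if_true, add_le_iff_nonpos_right, nonpos_iff_eq_zero, one_ne_zero,
          if_false]
        rw [hm]; exact hs

/-- Raise the `U`-part of a point to a prescribed value. -/
def pt (A : E n →ₗ[ℝ] U) (R : U →ₗ[ℝ] E n) (x : E n) (a : U) : E n := x + R (a - A x)

theorem A_pt (h : Hyp A B R S C) (x : E n) (a : U) : A (pt A R x a) = a := by
  unfold pt; rw [map_add, h.hAR]; abel

theorem B_pt (h : Hyp A B R S C) (x : E n) (a : U) : B (pt A R x a) = B x := by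
  unfold pt; rw [map_add, h.hBR]; abel

theorem g_pt (h : Hyp A B R S C) (x : E n) (a : U) : gg A B (pt A R x a) = ‖a‖ - ‖B x‖ := by
  unfold gg; rw [A_pt h, B_pt h]

theorem pt_self (x : E n) : pt A R x (A x) = x := by
  unfold pt; simp

theorem dist_pt (h : Hyp A B R S C) (x : E n) (a b : U) :
    dist (pt A R x a) (pt A R x b) ≤ C * ‖a - b‖ := by
  unfold pt
  rw [dist_add_left, dist_eq_norm, ← map_sub]
  refine (h.hR _).trans (le_of_eq ?_)
  congr 2; abel

/-- The unit vector of the `U`-part. -/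
noncomputable def un (A : E n →ₗ[ℝ] U) (x : E n) : U := ‖A x‖⁻¹ • A x

theorem A_pos {x : E n} (hx : 0 < gg A B x) : 0 < ‖A x‖ := by
  unfold gg at hx; have := norm_nonneg (B x); linarith

theorem un_norm {x : E n} (hx : 0 < ‖A x‖) : ‖un A x‖ = 1 := by
  unfold un
  rw [norm_smul, norm_inv, norm_norm, inv_mul_cancel₀ hx.ne']

theorem un_smul {x : E n} (hx : 0 < ‖A x‖) : ‖A x‖ • un A x = A x := by
  unfold un
  rw [smul_smul, mul_inv_cancel₀ hx.ne', one_smul]

/-- Going up radially. -/
theorem up_aux (h : Hyp A B R S C) {x : E n} (hx : 0 < gg A B x) :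
    ∀ (m : ℕ) (s s' : ℝ), 0 ≤ s → s ≤ s' →
      gg A B x + s' ≤ (1 + 1 / (8 * C ^ 2)) ^ m * (gg A B x + s) →
      Ch A B C m (pt A R x ((‖A x‖ + s) • un A x)) (pt A R x ((‖A x‖ + s') • un A x)) := by
  have hC := h.hC
  have hA := A_pos hx
  have hgs : ∀ s, 0 ≤ s → gg A B (pt A R x ((‖A x‖ + s) • un A x)) = gg A B x + s := by
    intro s hs
    rw [g_pt h, norm_smul, un_norm hA, Real.norm_of_nonneg (by linarith)]
    unfold gg; ring
  intro m
  induction m with
  | zero =>
    intro s s' hs hss hle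
    have : s = s' := by simp at hle; linarith
    subst this
    exact Ch.refl _ (by rw [hgs s hs]; linarith)
  | succ m ih =>
    intro s s' hs hss hle
    set q : ℝ := 1 + 1 / (8 * C ^ 2) with hq
    have hq1 : 1 < q := by rw [hq]; have : 0 < 1 / (8 * C ^ 2) := by positivity
                           linarith
    set t := max s ((gg A B x + s') / q - gg A B x) with ht
    have ht1 : s ≤ t := le_max_left _ _
    have ht2 : t ≤ s' := by
      apply max_le hss
      have : (gg A B x + s') / q ≤ gg A B x + s' := div_le_self (by linarith) hq1.le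
      linarith
    have ht3 : (gg A B x + s') ≤ q * (gg A B x + t) := by
      have h1 : (gg A B x + s') / q - gg A B x ≤ t := le_max_right _ _
      have h2 : (gg A B x + s') / q ≤ gg A B x + t := by linarith
      rwa [div_le_iff₀' (by linarith)] at h2
    have h1 : Ch A B C m (pt A R x ((‖A x‖ + s) • un A x)) (pt A R x ((‖A x‖ + t) • un A x)) := by
      apply ih s t hs ht1
      have hqm : 1 ≤ q ^ m := one_le_pow₀ hq1.le
      rcases le_total s ((gg A B x + s') / q - gg A B x) with h3 | h3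
      · rw [ht, max_eq_right h3]
        have : gg A B x + ((gg A B x + s') / q - gg A B x) = (gg A B x + s') / q := by ring
        rw [this, div_le_iff₀' (by linarith), ← mul_assoc, ← pow_succ']
        exact hle
      · rw [ht, max_eq_left h3]
        have : 0 ≤ gg A B x + s := by linarith
        nlinarith
    refine Ch.step m _ _ _ h1 ?_ ?_
    · rw [hgs _ (by linarith)]; linarith
    · left
      rw [hgs t (by linarith)]
      refine lt_of_le_of_lt (dist_pt h _ _ _) ?_
      rw [← sub_smul, norm_smul, un_norm hA, mul_one, Real.norm_eq_abs,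
        abs_of_nonpos (by linarith)]
      have h4 : s' - t ≤ (gg A B x + t) / (8 * C ^ 2) := by
        have : q * (gg A B x + t) = (gg A B x + t) + (gg A B x + t) / (8 * C ^ 2) := by
          rw [hq]; ring
        linarith
      have h5 : 0 < gg A B x + t := by linarith
      calc C * -(‖A x‖ + t - (‖A x‖ + s')) = C * (s' - t) := by ring
        _ ≤ C * ((gg A B x + t) / (8 * C ^ 2)) := by gcongr
        _ = (gg A B x + t) / (8 * C) := by field_simp
        _ < (gg A B x + t) / (4 * C) := by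
            apply div_lt_div_of_pos_left h5 (by positivity); linarith

theorem up (h : Hyp A B R S C) {x : E n} (hx : 0 < gg A B x) (m : ℕ) (s' : ℝ) (hs' : 0 ≤ s')
    (hle : gg A B x + s' ≤ (1 + 1 / (8 * C ^ 2)) ^ m * gg A B x) :
    Ch A B C m x (pt A R x ((‖A x‖ + s') • un A x)) := by
  have := up_aux h hx m 0 s' le_rfl hs' (by simpa using hle)
  rwa [add_zero, un_smul (A_pos hx), pt_self] at this

/-- Rotation of the `U`-part from one unit vector to another one. -/
theorem rot (h : Hyp A B R S C) (x : E n) (u w : U) (hu : ‖u‖ = 1) (hw : ‖w‖ = 1)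
    (huw : 0 ≤ inner ℝ w u) (r : ℝ) (hr : 0 < r) (hB : ‖B x‖ ≤ r / 5) (J : ℕ)
    (hJ : 16 * C ^ 2 < J) :
    Ch A B C J (pt A R x (r • u)) (pt A R x (r • w)) := by
  have hC := h.hC
  have hJ0 : (0:ℝ) < J := by nlinarith [one_le_pow₀ (n := 2) hC]
  set a : ℕ → U := fun j => r • ((1 - (j:ℝ) / J) • u + ((j:ℝ) / J) • w) with ha
  have hnorm : ∀ j ≤ J, 7 / 10 * r ≤ ‖a j‖ := by
    intro j hj
    have h0 : 0 ≤ (j:ℝ) / J := by positivity
    have h1 : (j:ℝ) / J ≤ 1 := by
      rw [div_le_one hJ0]; exact_mod_cast hj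
    set t := (j:ℝ) / J with ht
    have h2 : 7 / 10 ≤ ‖(1 - t) • u + t • w‖ := by
      have h3 : ‖(1 - t) • u + t • w‖ ^ 2 = (1 - t) ^ 2 + 2 * ((1 - t) * t * inner ℝ w u) + t ^ 2 := by
        rw [norm_add_sq_real, norm_smul, norm_smul, hu, hw, inner_smul_left, inner_smul_right,
          real_inner_comm]
        simp only [Real.norm_eq_abs, mul_one, sq_abs, conj_trivial]
        ring
      have h4 : 0 ≤ (1 - t) * t * inner ℝ w u := by
        apply mul_nonneg (mul_nonneg (by linarith) h0) huw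
      have h5 : (7/10 : ℝ) ^ 2 ≤ ‖(1 - t) • u + t • w‖ ^ 2 := by
        rw [h3]; nlinarith [sq_nonneg (t - 1/2)]
      exact le_of_sq_le_sq h5 (norm_nonneg _)
    simp only [ha, norm_smul, Real.norm_of_nonneg hr.le]
    nlinarith
  have hg : ∀ j ≤ J, r / 2 ≤ gg A B (pt A R x (a j)) := by
    intro j hj
    rw [g_pt h]
    have := hnorm j hj
    linarith
  have key : ∀ j ≤ J, Ch A B C j (pt A R x (a 0)) (pt A R x (a j)) := by
    intro j
    induction j with
    | zero => intro _; exact Ch.refl _ (by have := hg 0 (Nat.zero_le _); linarith)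
    | succ j ih =>
      intro hj
      have hj' : j ≤ J := by omega
      refine Ch.step j _ _ _ (ih hj') (by have := hg _ hj; linarith) (Or.inl ?_)
      refine lt_of_le_of_lt (dist_pt h _ _ _) ?_
      have h1 : a j - a (j + 1) = (r / J) • (u - w) := by
        simp only [ha]
        rw [← smul_sub, div_eq_mul_inv r, mul_smul]
        congr 1
        push_cast
        rw [show (1 - ((j:ℝ) + 1) / J) = 1 - (j:ℝ) / J - (J:ℝ)⁻¹ by ring,
          show ((j:ℝ) + 1) / J = (j:ℝ) / J + (J:ℝ)⁻¹ by ring]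
        module
      rw [h1, norm_smul, Real.norm_of_nonneg (by positivity)]
      have h2 : ‖u - w‖ ≤ 2 := by
        refine (norm_sub_le _ _).trans ?_
        rw [hu, hw]; norm_num
      have h3 := hg j hj'
      calc C * (r / J * ‖u - w‖) ≤ C * (r / J * 2) := by gcongr
        _ < (r / 2) / (4 * C) := by
            rw [lt_div_iff₀ (by positivity)]
            have : C * (r / J * 2) * (4 * C) = r * (8 * C ^ 2) / J := by ring
            rw [this, div_lt_iff₀ hJ0]
            nlinarith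
        _ ≤ gg A B (pt A R x (a j)) / (4 * C) := by gcongr
  have h0 : a 0 = r • u := by simp [ha]
  have h1 : a J = r • w := by simp [ha, div_self hJ0.ne']
  have := key J le_rfl
  rwa [h0, h1] at this

theorem un_sub (x y : E n) (hx : 0 < ‖A x‖) (hy : 0 < ‖A y‖) :
    ‖un A x - un A y‖ ≤ 2 * ‖A x - A y‖ / ‖A x‖ := by
  have h1 : un A x - un A y = ‖A x‖⁻¹ • (A x - A y) + (‖A x‖⁻¹ - ‖A y‖⁻¹) • A y := by
    unfold un; module
  rw [h1]
  refine (norm_add_le _ _).trans ?_
  rw [norm_smul, norm_smul, norm_inv, norm_norm]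
  have h2 : ‖(‖A x‖⁻¹ - ‖A y‖⁻¹ : ℝ)‖ * ‖A y‖ ≤ ‖A x - A y‖ / ‖A x‖ := by
    have h3 : ‖A x‖⁻¹ - ‖A y‖⁻¹ = (‖A y‖ - ‖A x‖) / (‖A x‖ * ‖A y‖) := by
      field_simp
    rw [h3, Real.norm_eq_abs, abs_div, abs_of_pos (mul_pos hx hy), div_mul_eq_mul_div,
      div_le_div_iff₀ (mul_pos hx hy) hx]
    have h4 : |‖A y‖ - ‖A x‖| ≤ ‖A x - A y‖ := by
      rw [abs_sub_comm]; exact abs_norm_sub_norm_le _ _
    calc |‖A y‖ - ‖A x‖| * ‖A y‖ * ‖A x‖ ≤ ‖A x - A y‖ * ‖A y‖ * ‖A x‖ := by gcongr
      _ = ‖A x - A y‖ * (‖A x‖ * ‖A y‖) := by ring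
  calc ‖A x‖⁻¹ * ‖A x - A y‖ + ‖(‖A x‖⁻¹ - ‖A y‖⁻¹ : ℝ)‖ * ‖A y‖
      ≤ ‖A x‖⁻¹ * ‖A x - A y‖ + ‖A x - A y‖ / ‖A x‖ := by gcongr
    _ = 2 * ‖A x - A y‖ / ‖A x‖ := by ring

/-- The main chain construction. -/
theorem main (h : Hyp A B R S C) :
    ∃ N₀ : ℕ, ∀ (ε : ℝ), 0 < ε → ∀ k : ℕ, 1 ≤ k → ∀ x y : E n, ε < C * gg A B x →
      ε < C * gg A B y → dist x y < 2 ^ k * ε → ∃ m ≤ N₀ * k, Ch A B C m x y := by
  have hC := h.hC
  have hC2 : 1 ≤ C ^ 2 := one_le_pow₀ hC
  have hC3 : 1 ≤ C ^ 3 := one_le_pow₀ hC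
  have hC13 : C ≤ C ^ 3 := le_self_pow₀ hC (by norm_num)
  set Λ : ℝ := 16 * C ^ 3 with hΛ
  have hΛ0 : 0 < Λ := by positivity
  set q : ℝ := 1 + 1 / (8 * C ^ 2) with hq
  have hq1 : 1 < q := by rw [hq]; have : 0 < 1 / (8 * C ^ 2) := by positivity
                         linarith
  obtain ⟨p, hp⟩ := pow_unbounded_of_one_lt (2:ℝ) hq1
  obtain ⟨j, hj⟩ := pow_unbounded_of_one_lt (1 + 10 * Λ * C) (one_lt_two (α := ℝ))
  obtain ⟨J, hJ⟩ := exists_nat_gt (16 * C ^ 2)
  refine ⟨2 * (p * (1 + j)) + 2 * J + 1, ?_⟩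
  intro ε hε k hk x y hx hy hxy
  set D : ℝ := 2 ^ k * ε with hD
  have hD0 : 0 < D := by positivity
  have hgx : 0 < gg A B x := by
    by_contra hcon; push Not at hcon; nlinarith
  have hgy : 0 < gg A B y := by
    by_contra hcon; push Not at hcon; nlinarith
  have hAx := A_pos hgx
  have hAy := A_pos hgy
  set m0 : ℕ := p * (k + j) with hm0
  have hup : ∀ z : E n, ε < C * gg A B z → 0 < gg A B z → ∀ s', 0 ≤ s' → s' ≤ 10 * Λ * D →
      Ch A B C m0 z (pt A R z ((‖A z‖ + s') • un A z)) := by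
    intro z hz hgz s' hs0 hs1
    apply up h hgz m0 s' hs0
    rw [← hq, hm0, pow_mul]
    have h1 : (2:ℝ) ^ (k + j) ≤ (q ^ p) ^ (k + j) := by gcongr
    have h2 : (2:ℝ) ^ k * (1 + 10 * Λ * C) ≤ 2 ^ (k + j) := by
      rw [pow_add]; gcongr
    have h3 : (1:ℝ) ≤ 2 ^ k := one_le_pow₀ (by norm_num)
    calc gg A B z + s' ≤ gg A B z + 10 * Λ * D := by linarith
      _ ≤ gg A B z + 10 * Λ * (2 ^ k * (C * gg A B z)) := by
          rw [hD]; gcongr
      _ ≤ 2 ^ k * gg A B z + 10 * Λ * (2 ^ k * (C * gg A B z)) := by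
          have : gg A B z ≤ 2 ^ k * gg A B z := by nlinarith
          linarith
      _ = (2 ^ k * (1 + 10 * Λ * C)) * gg A B z := by ring
      _ ≤ (q ^ p) ^ (k + j) * gg A B z := by
          have := h2.trans h1
          gcongr
  have hAxy : ‖A x - A y‖ ≤ C * D := (A_lip h x y).trans (by gcongr)
  have hcount : m0 ≤ p * (1 + j) * k := by
    rw [hm0, mul_assoc]
    apply Nat.mul_le_mul_left
    nlinarith
  rcases le_or_gt (Λ * D) ‖A x‖ with hcase | hcase
  · -- far from the axis
    have hH : 8 * C * D ≤ 10 * Λ * D := by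
      have : 8 * C ≤ 10 * Λ := by rw [hΛ]; nlinarith
      gcongr
    have c1 := hup x hx hgx (8 * C * D) (by positivity) hH
    have c2 := hup y hy hgy (8 * C * D) (by positivity) hH
    have e1 : ∀ z : E n, 0 < ‖A z‖ → pt A R z ((‖A z‖ + 8 * C * D) • un A z) =
        z + (8 * C * D) • R (un A z) := by
      intro z hz
      unfold pt
      rw [add_smul, un_smul hz, add_sub_cancel_left, map_smul]
    have hd : dist (pt A R x ((‖A x‖ + 8 * C * D) • un A x))
        (pt A R y ((‖A y‖ + 8 * C * D) • un A y)) ≤ 2 * D := by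
      rw [e1 x hAx, e1 y hAy]
      have h1 := un_sub x y hAx hAy
      have h2 : 2 * ‖A x - A y‖ / ‖A x‖ ≤ 2 * (C * D) / (Λ * D) := by gcongr
      have h3 : 2 * (C * D) / (Λ * D) = 1 / (8 * C ^ 2) := by
        rw [hΛ]; field_simp; norm_num
      calc dist (x + (8 * C * D) • R (un A x)) (y + (8 * C * D) • R (un A y))
          ≤ dist x y + dist ((8 * C * D) • R (un A x)) ((8 * C * D) • R (un A y)) :=
            dist_add_add_le _ _ _ _
        _ = dist x y + 8 * C * D * ‖R (un A x - un A y)‖ := by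
            rw [dist_eq_norm ((8 * C * D) • R (un A x)), ← smul_sub, norm_smul,
              Real.norm_of_nonneg (by positivity), map_sub]
        _ ≤ D + 8 * C * D * (C * (1 / (8 * C ^ 2))) := by
            have h4 : ‖R (un A x - un A y)‖ ≤ C * (1 / (8 * C ^ 2)) := by
              refine (h.hR _).trans ?_
              have := h1.trans (h2.trans h3.le)
              gcongr
            gcongr
        _ = 2 * D := by field_simp; norm_num
    have g1 : gg A B (pt A R x ((‖A x‖ + 8 * C * D) • un A x)) = gg A B x + 8 * C * D := by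
      rw [g_pt h, norm_smul, un_norm hAx, Real.norm_of_nonneg (by positivity)]
      unfold gg; ring
    have c3 := Ch.one (C := C) c1.right c2.right (Or.inl (by
      rw [g1]
      refine lt_of_le_of_lt hd ?_
      rw [lt_div_iff₀ (by positivity)]
      nlinarith))
    refine ⟨m0 + 1 + m0, ?_, (c1.trans c3).trans c2.symm⟩
    calc m0 + 1 + m0 = 2 * m0 + 1 := by ring
      _ ≤ 2 * (p * (1 + j) * k) + 1 * k := by omega
      _ ≤ (2 * (p * (1 + j)) + 2 * J + 1) * k := by nlinarith [Nat.zero_le (J * k)]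
  · -- near the axis
    obtain ⟨w, hw, hw1, hw2⟩ := h.hη (un A x) (un A y)
    set r : ℝ := 10 * Λ * D with hr
    have hr0 : 0 < r := by positivity
    have hCΛ : C * D ≤ Λ * D := by
      have : C ≤ Λ := by rw [hΛ]; linarith
      gcongr
    have hΛD : 0 < Λ * D := by positivity
    have hAy2 : ‖A y‖ ≤ 2 * (Λ * D) := by
      have h1 : ‖A y‖ - ‖A x‖ ≤ ‖A y - A x‖ := norm_sub_norm_le _ _
      rw [norm_sub_rev] at h1
      linarith
    have hBx : ‖B x‖ ≤ r / 5 := by
      have : ‖B x‖ < ‖A x‖ := by unfold gg at hgx; linarith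
      rw [hr]; linarith
    have hBy : ‖B y‖ ≤ r / 5 := by
      have : ‖B y‖ < ‖A y‖ := by unfold gg at hgy; linarith
      rw [hr]; linarith
    have c1 := hup x hx hgx (r - ‖A x‖) (by rw [hr]; linarith) (by rw [hr]; linarith)
    have c2 := hup y hy hgy (r - ‖A y‖) (by rw [hr]; linarith) (by rw [hr]; linarith)
    rw [add_sub_cancel] at c1 c2
    have c3 := rot h x (un A x) w (un_norm hAx) hw hw1 r hr0 hBx J hJ
    have c4 := rot h y (un A y) w (un_norm hAy) hw hw2 r hr0 hBy J hJ
    have g1 : 4 / 5 * r ≤ gg A B (pt A R x (r • w)) := by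
      rw [g_pt h, norm_smul, hw, Real.norm_of_nonneg hr0.le]; linarith
    have c5 : Ch A B C 1 (pt A R x (r • w)) (pt A R y (r • w)) := by
      apply Ch.one c3.right c4.right
      left
      have h1 : dist (pt A R x (r • w)) (pt A R y (r • w)) ≤ D + C * (C * D) := by
        unfold pt
        refine (dist_add_add_le _ _ _ _).trans ?_
        rw [dist_eq_norm (R _), ← map_sub, sub_sub_sub_cancel_left]
        have h2 : ‖R (A y - A x)‖ ≤ C * (C * D) := by
          refine (h.hR _).trans ?_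
          rw [norm_sub_rev]
          gcongr
        linarith
      refine lt_of_le_of_lt h1 ?_
      rw [lt_div_iff₀ (by positivity)]
      have h2 : (D + C * (C * D)) * (4 * C) ≤ 8 * C ^ 3 * D := by
        have : (D + C * (C * D)) * (4 * C) = 4 * C * D + 4 * C ^ 3 * D := by ring
        rw [this]
        have : C * D ≤ C ^ 3 * D := by gcongr
        linarith
      have h3 : 4 / 5 * r = 128 * (C ^ 3 * D) := by rw [hr, hΛ]; ring
      have h4 : 0 < C ^ 3 * D := by positivity
      linarith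
    refine ⟨m0 + J + 1 + (J + m0), ?_,
      ((c1.trans c3).trans c5).trans ((c4.symm).trans c2.symm)⟩
    calc m0 + J + 1 + (J + m0) = 2 * m0 + (2 * J + 1) * 1 := by ring
      _ ≤ 2 * (p * (1 + j) * k) + (2 * J + 1) * k := by
          have : (2 * J + 1) * 1 ≤ (2 * J + 1) * k := Nat.mul_le_mul_left _ hk
          omega
      _ = (2 * (p * (1 + j)) + 2 * J + 1) * k := by ring

theorem Ch.joined (h : Hyp A B R S C) {m : ℕ} {x y : E n} (hc : Ch A B C m x y) :
    JoinedIn (Om A B) x y := by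
  induction hc with
  | refl x hx => exact JoinedIn.refl ((mem_Om x).2 hx)
  | step m x y z hc hz hs ih =>
    refine ih.trans ?_
    rcases hs with hs | hs
    · have h1 : segment ℝ y z ⊆ Om A B :=
        ((convex_ball y _).segment_subset (mem_ball_self (by
          have := h.hC; have := hc.right; positivity)) (by rw [mem_ball, dist_comm]; exact hs)).trans
          (ball_sub h)
      exact JoinedIn.of_segment_subset h1
    · have h1 : segment ℝ y z ⊆ Om A B :=
        ((convex_ball z _).segment_subset (by rw [mem_ball]; exact hs) (mem_ball_self (by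
          have := h.hC; positivity))).trans (ball_sub h)
      exact JoinedIn.of_segment_subset h1

theorem nonempty_Om (h : Hyp A B R S C) : (Om A B).Nonempty := by
  obtain ⟨u, hu, -, -⟩ := h.hη 0 0
  refine ⟨R u, ?_⟩
  rw [mem_Om]; unfold gg
  rw [h.hAR, h.hBR, hu]; simp

theorem connected_Om (h : Hyp A B R S C) : IsConnected (Om A B) := by
  obtain ⟨N₀, hN⟩ := main h
  obtain ⟨x, hx⟩ := nonempty_Om h
  have hC := h.hC
  have hpc : IsPathConnected (Om A B) := by
    refine ⟨x, hx, ?_⟩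
    intro y hy
    have hgx := (mem_Om x).1 hx
    have hgy := (mem_Om y).1 hy
    set ε := min (gg A B x) (gg A B y) / 2 with hε
    have hε0 : 0 < ε := by
      have := lt_min hgx hgy; positivity
    have h1 : ε < gg A B x := by
      have := min_le_left (gg A B x) (gg A B y); have := lt_min hgx hgy; linarith
    have h2 : ε < gg A B y := by
      have := min_le_right (gg A B x) (gg A B y); have := lt_min hgx hgy; linarith
    obtain ⟨k, hk⟩ := pow_unbounded_of_one_lt (dist x y / ε) (one_lt_two (α := ℝ))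
    have hk' : dist x y / ε < 2 ^ (k + 1) := hk.trans_le (pow_le_pow_right₀ (by norm_num) (by omega))
    rw [div_lt_iff₀ hε0] at hk'
    obtain ⟨m, -, hm⟩ := hN ε hε0 (k + 1) (by omega) x y (by nlinarith) (by nlinarith) hk'
    exact hm.joined h
  exact hpc.isConnected

theorem isNTA (h : Hyp A B R S C) : IsNTA (Om A B) := by
  obtain ⟨N₀, hN⟩ := main h
  have hC := h.hC
  have hC2 : 1 ≤ C ^ 2 := one_le_pow₀ hC
  refine ⟨isOpen_Om h, connected_Om h, (N₀ : ℝ) + 1 + 16 * C ^ 2, by
    have : (0:ℝ) ≤ N₀ := Nat.cast_nonneg _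
    linarith, ?_, ?_⟩
  · intro Q hQ r hr
    have hgQ := frontier_zero h hQ
    set M : ℝ := (N₀ : ℝ) + 1 + 16 * C ^ 2 with hM
    have hM1 : 16 * C ^ 2 < M := by
      have : (0:ℝ) ≤ N₀ := Nat.cast_nonneg _
      linarith
    have hM0 : 0 < M := by linarith
    have hne : (frontier (Om A B)).Nonempty := ⟨Q, hQ⟩
    set s : ℝ := r / (2 * C) with hs
    have hs0 : 0 < s := by positivity
    obtain ⟨u, hu, hAu⟩ : ∃ u : U, ‖u‖ = 1 ∧ A Q = ‖A Q‖ • u := by
      by_cases h0 : A Q = 0
      · obtain ⟨u, hu, -, -⟩ := h.hη 0 0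
        exact ⟨u, hu, by simp [h0]⟩
      · exact ⟨un A Q, un_norm (norm_pos_iff.2 h0), (un_smul (norm_pos_iff.2 h0)).symm⟩
    obtain ⟨v, hv, hBv⟩ : ∃ v : V, ‖v‖ = 1 ∧ B Q = ‖B Q‖ • v := by
      by_cases h0 : B Q = 0
      · obtain ⟨v, hv⟩ := h.hV
        exact ⟨v, hv, by simp [h0]⟩
      · refine ⟨‖B Q‖⁻¹ • B Q, ?_, ?_⟩
        · rw [norm_smul, norm_inv, norm_norm, inv_mul_cancel₀ (norm_ne_zero_iff.2 h0)]
        · rw [smul_smul, mul_inv_cancel₀ (norm_ne_zero_iff.2 h0), one_smul]
    have hdist : ∀ z : E n, |gg A B z| = s → r / M < infDist z (frontier (Om A B)) := by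
      intro z hz
      have h1 : s / (2 * C) ≤ infDist z (frontier (Om A B)) := by
        rw [le_infDist hne]
        intro w hw
        have h2 := dist_frontier_ge h z hw
        rw [hz] at h2
        rw [div_le_iff₀ (by positivity)]; linarith
      refine lt_of_lt_of_le ?_ h1
      rw [hs, div_div, div_lt_div_iff_of_pos_left hr hM0 (by positivity)]
      nlinarith
    have ga : gg A B (Q + R (s • u)) = s := by
      unfold gg
      rw [map_add, map_add, h.hAR, h.hBR, add_zero]
      nth_rewrite 1 [hAu]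
      rw [← add_smul, norm_smul, hu, Real.norm_of_nonneg (by positivity)]
      unfold gg at hgQ
      linarith
    have gb : gg A B (Q + S (s • v)) = -s := by
      unfold gg
      rw [map_add, map_add, h.hAS, h.hBS, add_zero]
      nth_rewrite 1 [hBv]
      rw [← add_smul, norm_smul, hv, Real.norm_of_nonneg (by positivity)]
      unfold gg at hgQ
      linarith
    have hCs : C * s < r := by
      rw [hs]; field_simp; linarith
    refine ⟨Q + R (s • u), ?_, Q + S (s • v), ?_, ?_, ?_, ?_, ?_⟩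
    · rw [mem_Om, ga]; exact hs0
    · intro hcl
      have h1 := closure_lt_subset_le (contB h).norm (contA h).norm hcl
      simp only [Set.mem_ofPred_eq] at h1
      unfold gg at gb
      linarith
    · rw [dist_eq_norm, add_sub_cancel_left]
      refine lt_of_le_of_lt (h.hR _) ?_
      rw [norm_smul, hu, Real.norm_of_nonneg hs0.le, mul_one]; exact hCs
    · rw [dist_eq_norm, add_sub_cancel_left]
      refine lt_of_le_of_lt (h.hS _) ?_
      rw [norm_smul, hv, Real.norm_of_nonneg hs0.le, mul_one]; exact hCs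
    · exact hdist _ (by rw [ga, abs_of_pos hs0])
    · exact hdist _ (by rw [gb, abs_neg, abs_of_pos hs0])
  · intro ε hε k hk x hx y hy hdx hdy hxy
    have hfr : ∀ z ∈ Om A B, ε < infDist z (frontier (Om A B)) → ε < C * gg A B z := by
      intro z hz hdz
      obtain ⟨w, hw, hw2⟩ := exists_frontier h hz
      exact lt_of_lt_of_le hdz ((infDist_le_dist_of_mem hw).trans hw2)
    obtain ⟨m, hm, hch⟩ := hN ε hε k hk x y (hfr x hx hdx) (hfr y hy hdy) hxy
    obtain ⟨c, hc0, hcm, hc1, hc2⟩ := hch.seq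
    refine ⟨m, c, fun i => gg A B (c i) / (4 * C), ?_, ?_, ?_, ?_, ?_⟩
    · have h1 : (m:ℝ) ≤ N₀ * k := by exact_mod_cast hm
      have h2 : (1:ℝ) ≤ k := by exact_mod_cast hk
      have h3 : (0:ℝ) ≤ 16 * C ^ 2 * k := by positivity
      nlinarith
    · intro i hi
      exact ball_props h ((mem_Om _).2 (hc1 i hi)) (by
        have : (0:ℝ) ≤ N₀ := Nat.cast_nonneg _
        linarith)
    · intro i hi
      have p1 : 0 < gg A B (c i) / (4 * C) := by have := hc1 i hi.le; positivity
      have p2 : 0 < gg A B (c (i + 1)) / (4 * C) := by have := hc1 (i + 1) hi; positivity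
      rcases hc2 i hi with h1 | h1
      · exact ⟨c (i + 1), by rw [mem_ball, dist_comm]; exact h1, mem_ball_self p2⟩
      · exact ⟨c i, mem_ball_self p1, by rw [mem_ball]; exact h1⟩
    · have p1 : 0 < gg A B (c 0) / (4 * C) := by have := hc1 0 (Nat.zero_le _); positivity
      have := mem_ball_self (x := c 0) p1
      simpa only [hc0] using this
    · have p1 : 0 < gg A B (c m) / (4 * C) := by have := hc1 m le_rfl; positivity
      have := mem_ball_self (x := c m) p1
      simpa only [hcm] using this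

end

theorem ntaCone : NtaCone := by
  intro n U V _ _ _ _ A B R S C hC hA hB hR hS hAR hBR hBS hAS hη hV
  exact isNTA (A := A) (B := B) (R := R) (S := S) (C := C)
    ⟨hC, hA, hB, hR, hS, hAR, hBR, hBS, hAS, hη, hV⟩

end Pool.Agent.R230.HZ.N

namespace Pool.Agent.R230.HZ

theorem ntaCone : NtaCone := N.ntaCone

end Pool.Agent.R230.HZ
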