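import Pool.Agent.R230.HZ.T2

namespace Pool.Agent.R230.HZ

open Metric Set
open scoped ENNReal NNReal Topology

theorem notBiLip : NotBiLip := by
  rintro ⟨f, L, hL, hf⟩
  have hL0 : 0 < L := by linarith
  -- a point of the line whose image is not the origin
  obtain ⟨s0, hs0⟩ : ∃ s0, (f ⟨ell s0, ell_mem s0⟩ : E 5) ≠ 0 := by
    by_contra hcon
    push Not at hcon
    have h1 : f ⟨ell 0, ell_mem 0⟩ = f ⟨ell 1, ell_mem 1⟩ := by
      apply Subtype.ext; rw [hcon 0, hcon 1]
    have h2 := f.injective h1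
    have h3 : ell 0 = ell 1 := by simpa using h2
    have h4 := ell_dist 0 1
    rw [h3, dist_self] at h4
    norm_num at h4
  obtain ⟨b, hb⟩ : ∃ b : E 5, b = f ⟨ell s0, ell_mem s0⟩ := ⟨_, rfl⟩
  have hbZ : b ∈ zeroSet (P 1) := by rw [hb]; exact (f _).2
  rw [← hb] at hs0
  have hpos : 0 < b 2 ^ 2 + b 3 ^ 2 := by
    rcases lt_or_ge 0 (b 2 ^ 2 + b 3 ^ 2) with h | h
    · exact h
    · exfalso
      apply hs0
      have hb' := (mem_Z1 b).mp hbZ
      have h2 : b 2 = 0 := by nlinarith [sq_nonneg (b 2), sq_nonneg (b 3)]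
      have h3 : b 3 = 0 := by nlinarith [sq_nonneg (b 2), sq_nonneg (b 3)]
      rw [h2, h3] at hb'
      have h0 : b 0 = 0 := by nlinarith [sq_nonneg (b 0), sq_nonneg (b 1), sq_nonneg (b 4)]
      have h1 : b 1 = 0 := by nlinarith [sq_nonneg (b 0), sq_nonneg (b 1), sq_nonneg (b 4)]
      have h4 : b 4 = 0 := by nlinarith [sq_nonneg (b 0), sq_nonneg (b 1), sq_nonneg (b 4)]
      ext i
      fin_cases i <;> simp [h0, h1, h2, h3, h4]
  obtain ⟨w, hw, hw2⟩ : ∃ w : ℝ, 0 < w ∧ w ^ 2 = b 2 ^ 2 + b 3 ^ 2 :=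
    ⟨Real.sqrt _, Real.sqrt_pos.mpr hpos, Real.sq_sqrt hpos.le⟩
  obtain ⟨c, hc⟩ : ∃ c : ℝ, c = b 2 / w := ⟨_, rfl⟩
  obtain ⟨s, hs⟩ : ∃ s : ℝ, s = b 3 / w := ⟨_, rfl⟩
  have hcs : c ^ 2 + s ^ 2 = 1 := by
    rw [hc, hs, div_pow, div_pow, ← add_div, ← hw2, div_self (by positivity)]
  have hhb : hh c s b = w := by
    rw [hh, hc, hs]
    field_simp
    linarith
  -- the open set
  have hUo : IsOpen {y : E 4 | 0 < qq y} := isOpen_lt continuous_const qq_cont
  have hbU : kap c s b ∈ {y : E 4 | 0 < qq y} := by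
    show 0 < qq (kap c s b)
    rw [qq_kap hcs b hbZ, hhb]; positivity
  obtain ⟨r, hr, hball⟩ := Metric.isOpen_iff.mp hUo _ hbU
  obtain ⟨ρ, hρ, hρ1⟩ : ∃ ρ : ℝ, 0 < ρ ∧ L * (2 * ρ) < min w r := by
    refine ⟨min w r / (4 * L), by positivity, ?_⟩
    have h1 : 0 < min w r := lt_min hw hr
    have h2 : L * (2 * (min w r / (4 * L))) = min w r / 2 := by field_simp; ring
    rw [h2]; linarith
  let F : ℝ → zeroSet (P 1) := fun t => f ⟨gam ρ s0 t, gam_mem ρ s0 t⟩
  have hF : ∀ t, dist (F t : E 5) b < min w r := by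
    intro t
    have h1 := (hf ⟨gam ρ s0 t, gam_mem ρ s0 t⟩ ⟨ell s0, ell_mem s0⟩).2
    rw [Subtype.dist_eq, Subtype.dist_eq] at h1
    rw [hb]
    calc _ ≤ _ := h1
      _ ≤ L * (2 * ρ) := by gcongr; exact gam_ell ρ s0 t hρ.le
      _ < _ := hρ1
  have hFh : ∀ t, 0 < hh c s (F t) := by
    intro t
    have h1 := hh_lip hcs (F t : E 5) b
    have h2 := hF t
    have h3 := min_le_left w r
    rw [hhb] at h1
    have := neg_le_of_abs_le h1
    linarith
  let cc : ℝ → E 4 := fun t => kap c s (F t)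
  let g : ℝ → E 4 := fun u => kap c s (f ⟨ell u, ell_mem u⟩)
  obtain ⟨K, hK⟩ : ∃ K : ℝ≥0, (K : ℝ) = max (L * (2 * ρ)) L :=
    ⟨⟨max (L * (2 * ρ)) L, by positivity⟩, rfl⟩
  have hcc : LipschitzWith K cc := by
    apply LipschitzWith.of_dist_le_mul
    intro t t'
    have h1 := (hf ⟨gam ρ s0 t, gam_mem ρ s0 t⟩ ⟨gam ρ s0 t', gam_mem ρ s0 t'⟩).2
    rw [Subtype.dist_eq, Subtype.dist_eq] at h1
    calc dist (cc t) (cc t') ≤ _ := kap_lip hcs _ _
      _ ≤ _ := h1
      _ ≤ L * (2 * ρ * |t - t'|) := by gcongr; exact gam_lip ρ s0 hρ.le t t'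
      _ = (L * (2 * ρ)) * dist t t' := by rw [Real.dist_eq]; ring
      _ ≤ K * dist t t' := by rw [hK]; gcongr; exact le_max_left _ _
  have hg : LipschitzWith K g := by
    apply LipschitzWith.of_dist_le_mul
    intro t t'
    have h1 := (hf ⟨ell t, ell_mem t⟩ ⟨ell t', ell_mem t'⟩).2
    rw [Subtype.dist_eq, Subtype.dist_eq] at h1
    calc dist (g t) (g t') ≤ _ := kap_lip hcs _ _
      _ ≤ _ := h1
      _ = L * dist t t' := by rw [Real.dist_eq]; simp only [ell_dist]
      _ ≤ K * dist t t' := by rw [hK]; gcongr; exact le_max_right _ _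
  obtain ⟨a, ha, hgen⟩ := generic g cc K hg hcc (kap c s b) r hr
  let τ : ℝ → ℝ := fun u => max 0 (min 1 u)
  have hτc : Continuous τ := by fun_prop
  have hτ0 : ∀ u, 0 ≤ τ u := fun u => le_max_left _ _
  have hτ1 : ∀ u, τ u ≤ 1 := fun u => max_le (by norm_num) (min_le_left _ _)
  let D : ℝ × ℝ → E 4 := fun z => (1 - τ z.1) • cc z.2 + τ z.1 • a
  have hDc : Continuous D := by
    have := hcc.continuous
    fun_prop
  have hcb : ∀ t, cc t ∈ ball (kap c s b) r := by
    intro t
    rw [mem_ball]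
    exact (kap_lip hcs _ _).trans_lt ((hF t).trans_le (min_le_right _ _))
  have hD : ∀ z, D z ∈ ball (kap c s b) r := by
    intro z
    exact convex_ball _ _ (hcb z.2) ha (by linarith [hτ1 z.1]) (hτ0 _) (by ring)
  have hDq : ∀ z, 0 ≤ qq (D z) := fun z => (hball (hD z)).le
  let X : ℝ × ℝ → zeroSet (P 1) := fun z => ⟨psi c s (D z), psi_mem hcs _ (hDq z)⟩
  have hXc : Continuous X := by
    apply Continuous.subtype_mk
    exact (psi_cont c s).comp hDc
  have hfs : Continuous f.symm := by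
    have : LipschitzWith (Real.toNNReal L) f.symm := by
      apply LipschitzWith.of_dist_le_mul
      intro u v
      have h1 := (hf (f.symm u) (f.symm v)).1
      rw [f.apply_symm_apply, f.apply_symm_apply] at h1
      rw [Real.coe_toNNReal L hL0.le]
      rw [inv_mul_le_iff₀ hL0] at h1
      exact h1
    exact this.continuous
  let Y : ℝ × ℝ → E 5 := fun z => (f.symm (X z) : E 5)
  have hYc : Continuous Y := continuous_subtype_val.comp (hfs.comp hXc)
  have hYZ : ∀ z, Y z ∈ zeroSet (P 0) := fun z => (f.symm (X z)).2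
  have hYl : ∀ z s', Y z ≠ ell s' := by
    intro z s' h
    have h1 : f.symm (X z) = ⟨ell s', ell_mem s'⟩ := Subtype.ext h
    rw [Equiv.symm_apply_eq] at h1
    have h2 : psi c s (D z) = (f ⟨ell s', ell_mem s'⟩ : E 5) := congrArg Subtype.val h1
    have h3 : D z = g s' := by
      rw [← kap_psi hcs (D z), h2]
    rcases (hτ0 z.1).eq_or_lt with h0 | h0
    · have h4 : D z = cc z.2 := by simp [D, ← h0]
      rw [h4] at h2
      rw [psi_kap hcs _ (F z.2).2 (hFh z.2).le] at h2
      have h5 : F z.2 = f ⟨ell s', ell_mem s'⟩ := Subtype.ext h2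
      have h6 := f.injective h5
      have h7 : gam ρ s0 z.2 = ell s' := by simpa using h6
      have h8 := congrArg (fun x : E 5 => x 2) h7
      simp [gam, ell] at h8
      exact hρ.ne' h8
    · exact hgen s' z.2 (τ z.1) h0 h3
  let W : ℝ × ℝ → ℂ := fun z => (Y z 0 : ℂ) + (Y z 1 : ℂ) * Complex.I
  have hWc : Continuous W := by
    have h0 : Continuous fun z => Y z 0 := by fun_prop
    have h1 : Continuous fun z => Y z 1 := by fun_prop
    exact (Complex.continuous_ofReal.comp h0).add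
      ((Complex.continuous_ofReal.comp h1).mul continuous_const)
  have hgg : gam ρ s0 (2 * Real.pi) = gam ρ s0 0 := by
    simp [gam]
  refine winding W hWc ?_ ?_ ?_ ρ hρ ?_
  · intro z h
    apply off_line (Y z) (hYZ z) (hYl z)
    apply Complex.ext
    · simpa [W] using congrArg Complex.re h
    · simpa [W] using congrArg Complex.im h
  · intro u
    have h1 : D (u, 2 * Real.pi) = D (u, 0) := by
      simp only [D, cc, F, hgg]
    have h2 : X (u, 2 * Real.pi) = X (u, 0) := by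
      apply Subtype.ext; simp only [X, h1]
    simp only [W, Y, h2]
  · intro t
    have h1 : D (1, t) = D (1, 0) := by
      simp [D, τ]
    have h2 : X (1, t) = X (1, 0) := by
      apply Subtype.ext; simp only [X, h1]
    simp only [W, Y, h2]
  · intro t
    have h1 : D (0, t) = cc t := by
      simp [D, τ]
    have h2 : X (0, t) = F t := by
      apply Subtype.ext
      simp only [X, h1]
      exact psi_kap hcs _ (F t).2 (hFh t).le
    have h3 : Y (0, t) = gam ρ s0 t := by
      simp only [Y, h2, F, Equiv.symm_apply_apply]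
    simp only [W, h3]
    simp only [gam]
    simp
    rw [Complex.exp_mul_I]
    ring

end Pool.Agent.R230.HZ
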