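import Pool.Agent.R230.HZ.Defs

namespace Pool.Agent.R230.HZ

open Metric Set Complex
open scoped ENNReal NNReal Topology

theorem exp_const {φ : ℝ → ℂ} (hφ : Continuous φ) (h : ∀ t, exp (φ t) = exp (φ 0)) (t : ℝ) :
    φ t = φ 0 := by
  have hT : IsDiscrete ((AddSubgroup.zmultiples (2 * Real.pi * I) : AddSubgroup ℂ) : Set ℂ) := by
    rw [isDiscrete_iff_discreteTopology]
    exact NormedSpace.discreteTopology_zmultiples _
  have hc : ContinuousOn (fun t => φ t - φ 0) (univ : Set ℝ) :=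
    (hφ.sub continuous_const).continuousOn
  have hm : MapsTo (fun t => φ t - φ 0) (univ : Set ℝ)
      ((AddSubgroup.zmultiples (2 * Real.pi * I) : AddSubgroup ℂ) : Set ℂ) := by
    intro s _
    have h1 := h s
    rw [exp_eq_exp_iff_exists_int] at h1
    obtain ⟨n, hn⟩ := h1
    simp only [SetLike.mem_coe, AddSubgroup.mem_zmultiples_iff]
    refine ⟨n, ?_⟩
    rw [hn]
    simp
  have h2 := isPreconnected_univ.constant_of_mapsTo hT hc hm (mem_univ t) (mem_univ 0)
  simp only [sub_self] at h2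
  exact sub_eq_zero.mp h2

theorem winding (W : ℝ × ℝ → ℂ) (hW : Continuous W) (h0 : ∀ z, W z ≠ 0)
    (hper : ∀ τ, W (τ, 2 * Real.pi) = W (τ, 0)) (hconst : ∀ t, W (1, t) = W (1, 0))
    (ρ : ℝ) (hρ : 0 < ρ) (hcirc : ∀ t : ℝ, W (0, t) = ρ * exp (t * I)) : False := by
  have hsc : IsSimplyConnected (univ : Set (ℝ × ℝ)) := by
    have : ContractibleSpace (univ : Set (ℝ × ℝ)) :=
      (Homeomorph.Set.univ (ℝ × ℝ)).contractibleSpace_iff.mpr inferInstance
    exact SimplyConnectedSpace.ofContractible _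
  obtain ⟨G, hGc, hG⟩ := exists_continuousOn_eqOn_exp_comp hsc isOpen_univ hW.continuousOn
    (by rintro ⟨z, -, hz⟩; exact h0 z hz)
  have hGc' : Continuous G := by rwa [continuousOn_univ] at hGc
  have hG' : ∀ z, exp (G z) = W z := fun z => hG (mem_univ z)
  -- the difference
  have hD : ∀ τ, G (τ, 2 * Real.pi) - G (τ, 0) = G (0, 2 * Real.pi) - G (0, 0) := by
    intro τ
    refine exp_const (φ := fun τ => G (τ, 2 * Real.pi) - G (τ, 0)) (by fun_prop) ?_ τ
    intro τ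
    rw [exp_sub, exp_sub, hG', hG', hG', hG', hper, hper, div_self (h0 _), div_self (h0 _)]
  have h1 : G (1, 2 * Real.pi) = G (1, 0) := by
    refine exp_const (φ := fun t => G (1, t)) (by fun_prop) ?_ (2 * Real.pi)
    intro t
    rw [hG', hG', hconst]
  have h2 : G (0, 2 * Real.pi) - (2 * Real.pi : ℝ) * I = G (0, 0) - (0 : ℝ) * I := by
    refine exp_const (φ := fun t : ℝ => G (0, t) - t * I) (by fun_prop) ?_ (2 * Real.pi)
    intro t
    have hρ' : (ρ : ℂ) ≠ 0 := by exact_mod_cast hρ.ne'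
    rw [exp_sub, exp_sub, hG', hG', hcirc, hcirc]
    rw [mul_div_cancel_right₀ _ (exp_ne_zero _), mul_div_cancel_right₀ _ (exp_ne_zero _)]
  have h3 := hD 1
  rw [h1, sub_self] at h3
  have h4 : ((2 * Real.pi : ℝ) : ℂ) * I = 0 := by
    have : ((2 * Real.pi : ℝ) : ℂ) * I = G (0, 2 * Real.pi) - G (0, 0) := by
      have := h2
      simp only [ofReal_zero, zero_mul, sub_zero] at this
      rw [← this]; ring
    rw [this, ← h3]
  have h5 : (2 * Real.pi : ℝ) = 0 := by
    have := mul_eq_zero.mp h4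
    rcases this with h | h
    · exact_mod_cast h
    · exact absurd h I_ne_zero
  linarith [Real.pi_pos]

theorem generic (g c : ℝ → E 4) (K : ℝ≥0) (hg : LipschitzWith K g) (hc : LipschitzWith K c)
    (p : E 4) (r : ℝ) (hr : 0 < r) :
    ∃ a ∈ ball p r, ∀ s t τ : ℝ, 0 < τ → (1 - τ) • c t + τ • a ≠ g s := by
  let m : ℝ × ℝ × ℝ → E 4 × E 4 × ℝ := fun x => (g x.1, c x.2.1, x.2.2)
  have hm : LipschitzWith (max K (max K 1)) m := by
    have h1 : LipschitzWith K (fun x : ℝ × ℝ × ℝ => g x.1) := by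
      simpa [Function.comp_def] using hg.comp (LipschitzWith.prod_fst (α := ℝ) (β := ℝ × ℝ))
    have h2 : LipschitzWith K (fun x : ℝ × ℝ × ℝ => c x.2.1) := by
      simpa [Function.comp_def] using hc.comp ((LipschitzWith.prod_fst (α := ℝ) (β := ℝ)).comp
        (LipschitzWith.prod_snd (α := ℝ) (β := ℝ × ℝ)))
    have h3 : LipschitzWith 1 (fun x : ℝ × ℝ × ℝ => x.2.2) := by
      simpa [Function.comp_def] using (LipschitzWith.prod_snd (α := ℝ) (β := ℝ)).comp
        (LipschitzWith.prod_snd (α := ℝ) (β := ℝ × ℝ))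
    exact h1.prodMk (h2.prodMk h3)
  let Φ : E 4 × E 4 × ℝ → E 4 := fun x => x.2.2⁻¹ • (x.1 - (1 - x.2.2) • x.2.1)
  let S : Set (E 4 × E 4 × ℝ) := {x | 0 < x.2.2}
  have hS : Convex ℝ S := by
    have : S = (LinearMap.snd ℝ (E 4) ℝ ∘ₗ LinearMap.snd ℝ (E 4) (E 4 × ℝ)) ⁻¹' (Ioi 0) := by
      ext x; simp [S]
    rw [this]
    exact (convex_Ioi 0).linear_preimage _
  have hΦ : ContDiffOn ℝ 1 Φ S := by
    have h1 : ContDiffOn ℝ 1 (fun x : E 4 × E 4 × ℝ => x.2.2⁻¹) S := by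
      apply ContDiffOn.inv
      · exact (contDiff_snd.comp contDiff_snd).contDiffOn
      · intro x hx; exact ne_of_gt hx
    have h2 : ContDiffOn ℝ 1 (fun x : E 4 × E 4 × ℝ => x.1 - (1 - x.2.2) • x.2.1) S :=
      (contDiff_fst.sub ((contDiff_const.sub (contDiff_snd.comp contDiff_snd)).smul
        (contDiff_fst.comp contDiff_snd))).contDiffOn
    exact h1.smul h2
  have hdim : dimH (range m ∩ S) < Module.finrank ℝ (E 4) := by
    calc dimH (range m ∩ S) ≤ dimH (range m) := dimH_mono inter_subset_left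
      _ ≤ dimH (univ : Set (ℝ × ℝ × ℝ)) := hm.dimH_range_le
      _ = Module.finrank ℝ (ℝ × ℝ × ℝ) := Real.dimH_univ_eq_finrank _
      _ < Module.finrank ℝ (E 4) := by
        simp
        norm_num
  have hd := hΦ.dense_compl_image_of_dimH_lt_finrank hS inter_subset_right hdim
  obtain ⟨a, ha, hab⟩ := hd.exists_mem_open isOpen_ball ⟨p, mem_ball_self hr⟩
  refine ⟨a, hab, ?_⟩
  intro s t τ hτ heq
  apply ha
  refine ⟨m (s, t, τ), ⟨mem_range_self _, hτ⟩, ?_⟩
  simp only [Φ, m]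
  rw [← heq]
  rw [add_sub_cancel_left, smul_smul, inv_mul_cancel₀ hτ.ne', one_smul]

end Pool.Agent.R230.HZ
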