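import Pool.Agent.R230.HZ.T1

namespace Pool.Agent.R230.HZ

open Metric Set
open scoped ENNReal NNReal Topology

/-- the line of singular points of the zero set of `P 0` -/
noncomputable def ell (s : ℝ) : E 5 := !₂[0, 0, 0, 0, s]

/-- small loops around the line -/
noncomputable def gam (ρ s t : ℝ) : E 5 := !₂[ρ * Real.cos t, ρ * Real.sin t, ρ, 0, s]

noncomputable def kap (c s : ℝ) (x : E 5) : E 4 := !₂[x 0, x 1, -s * x 2 + c * x 3, x 4]

noncomputable def hh (c s : ℝ) (x : E 5) : ℝ := c * x 2 + s * x 3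

noncomputable def qq (y : E 4) : ℝ := 2 / 3 * (y 0 ^ 2 + y 1 ^ 2 + y 3 ^ 2) - y 2 ^ 2

noncomputable def psi (c s : ℝ) (y : E 4) : E 5 :=
  !₂[y 0, y 1, c * Real.sqrt (qq y) - s * y 2, s * Real.sqrt (qq y) + c * y 2, y 3]

theorem mem_Z0 (x : E 5) : x ∈ zeroSet (P 0) ↔ x 0 ^ 2 + x 1 ^ 2 = x 2 ^ 2 + x 3 ^ 2 := by
  simp only [zeroSet, mem_ofPred_eq, eval_P]
  constructor <;> intro h <;> linarith

theorem mem_Z1 (x : E 5) : x ∈ zeroSet (P 1) ↔
    x 0 ^ 2 + x 1 ^ 2 + x 4 ^ 2 = 3 / 2 * (x 2 ^ 2 + x 3 ^ 2) := by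
  simp only [zeroSet, mem_ofPred_eq, eval_P]
  constructor <;> intro h <;> linarith

theorem ell_mem (s : ℝ) : ell s ∈ zeroSet (P 0) := by
  rw [mem_Z0]; simp [ell]

theorem gam_mem (ρ s t : ℝ) : gam ρ s t ∈ zeroSet (P 0) := by
  rw [mem_Z0]; simp only [gam]
  simp
  nlinarith [Real.cos_sq_add_sin_sq t]

theorem dist_sq {n : ℕ} (x y : E n) : dist x y ^ 2 = ∑ i, (x i - y i) ^ 2 := by
  rw [EuclideanSpace.dist_eq, Real.sq_sqrt (Finset.sum_nonneg fun i _ => by positivity)]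
  refine Finset.sum_congr rfl fun i _ => ?_
  rw [Real.dist_eq, sq_abs]

theorem kap_lip {c s : ℝ} (h : c ^ 2 + s ^ 2 = 1) (x y : E 5) :
    dist (kap c s x) (kap c s y) ≤ dist x y := by
  apply le_of_sq_le_sq _ dist_nonneg
  rw [dist_sq, dist_sq]
  simp only [Fin.sum_univ_four, Fin.sum_univ_five, kap]
  simp
  have : (-(s * x 2) + c * x 3 - (-(s * y 2) + c * y 3)) ^ 2 ≤
      (c ^ 2 + s ^ 2) * ((x 2 - y 2) ^ 2 + (x 3 - y 3) ^ 2) := by
    nlinarith [sq_nonneg (c * (x 2 - y 2) + s * (x 3 - y 3))]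
  rw [h, one_mul] at this
  linarith

theorem hh_lip {c s : ℝ} (h : c ^ 2 + s ^ 2 = 1) (x y : E 5) :
    |hh c s x - hh c s y| ≤ dist x y := by
  apply abs_le_of_sq_le_sq _ dist_nonneg
  rw [dist_sq]
  simp only [Fin.sum_univ_five, hh]
  have : (c * x 2 + s * x 3 - (c * y 2 + s * y 3)) ^ 2 ≤
      (c ^ 2 + s ^ 2) * ((x 2 - y 2) ^ 2 + (x 3 - y 3) ^ 2) := by
    nlinarith [sq_nonneg (-s * (x 2 - y 2) + c * (x 3 - y 3))]
  rw [h, one_mul] at this
  nlinarith [sq_nonneg (x 0 - y 0), sq_nonneg (x 1 - y 1), sq_nonneg (x 4 - y 4)]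

theorem kap_psi {c s : ℝ} (h : c ^ 2 + s ^ 2 = 1) (y : E 4) : kap c s (psi c s y) = y := by
  ext i
  fin_cases i <;> simp [kap, psi]
  linear_combination (y 2) * h

theorem psi_mem {c s : ℝ} (h : c ^ 2 + s ^ 2 = 1) (y : E 4) (hy : 0 ≤ qq y) :
    psi c s y ∈ zeroSet (P 1) := by
  rw [mem_Z1]
  have h1 := Real.sq_sqrt hy
  simp only [psi]
  simp
  set w := Real.sqrt (qq y)
  have h2 : (c * w - s * y 2) ^ 2 + (s * w + c * y 2) ^ 2 = w ^ 2 + y 2 ^ 2 := by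
    linear_combination (w ^ 2 + y 2 ^ 2) * h
  rw [h2, h1, qq]
  ring

theorem qq_kap {c s : ℝ} (h : c ^ 2 + s ^ 2 = 1) (x : E 5) (hx : x ∈ zeroSet (P 1)) :
    qq (kap c s x) = hh c s x ^ 2 := by
  rw [mem_Z1] at hx
  simp only [qq, kap, hh]
  simp
  linear_combination (2 / 3) * hx - (x 2 ^ 2 + x 3 ^ 2) * h

theorem psi_kap {c s : ℝ} (h : c ^ 2 + s ^ 2 = 1) (x : E 5) (hx : x ∈ zeroSet (P 1))
    (hp : 0 ≤ hh c s x) : psi c s (kap c s x) = x := by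
  have h1 : Real.sqrt (qq (kap c s x)) = hh c s x := by
    rw [qq_kap h x hx, Real.sqrt_sq hp]
  ext i
  fin_cases i <;> simp [psi, h1] <;> simp [kap, hh]
  · linear_combination (x 2) * h
  · linear_combination (x 3) * h

theorem psi_cont (c s : ℝ) : Continuous (psi c s) := by
  unfold psi qq
  fun_prop

theorem qq_cont : Continuous qq := by
  unfold qq
  fun_prop

theorem gam_ell (ρ s t : ℝ) (hρ : 0 ≤ ρ) : dist (gam ρ s t) (ell s) ≤ 2 * ρ := by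
  apply le_of_sq_le_sq _ (by positivity)
  rw [dist_sq]
  simp only [Fin.sum_univ_five, gam, ell]
  simp
  nlinarith [Real.cos_sq_add_sin_sq t]

theorem gam_lip (ρ s : ℝ) (hρ : 0 ≤ ρ) (t t' : ℝ) :
    dist (gam ρ s t) (gam ρ s t') ≤ 2 * ρ * |t - t'| := by
  apply le_of_sq_le_sq _ (by positivity)
  rw [dist_sq]
  simp only [Fin.sum_univ_five, gam]
  simp
  have h1 : |Real.cos t - Real.cos t'| ≤ |t - t'| := by
    have := Real.lipschitzWith_cos.dist_le_mul t t'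
    simpa [Real.dist_eq] using this
  have h2 : |Real.sin t - Real.sin t'| ≤ |t - t'| := by
    have := Real.lipschitzWith_sin.dist_le_mul t t'
    simpa [Real.dist_eq] using this
  have h1' : (Real.cos t - Real.cos t') ^ 2 ≤ |t - t'| ^ 2 := by
    rw [← sq_abs (Real.cos t - Real.cos t')]; gcongr
  have h2' : (Real.sin t - Real.sin t') ^ 2 ≤ |t - t'| ^ 2 := by
    rw [← sq_abs (Real.sin t - Real.sin t')]; gcongr
  have h3 : (ρ * Real.cos t - ρ * Real.cos t') ^ 2 ≤ ρ ^ 2 * |t - t'| ^ 2 := by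
    have : (ρ * Real.cos t - ρ * Real.cos t') ^ 2 = ρ ^ 2 * (Real.cos t - Real.cos t') ^ 2 := by
      ring
    rw [this]; gcongr
  have h4 : (ρ * Real.sin t - ρ * Real.sin t') ^ 2 ≤ ρ ^ 2 * |t - t'| ^ 2 := by
    have : (ρ * Real.sin t - ρ * Real.sin t') ^ 2 = ρ ^ 2 * (Real.sin t - Real.sin t') ^ 2 := by
      ring
    rw [this]; gcongr
  have h5 : 0 ≤ ρ ^ 2 * |t - t'| ^ 2 := by positivity
  nlinarith

theorem ell_dist (s s' : ℝ) : dist (ell s) (ell s') = |s - s'| := by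
  rw [← abs_of_nonneg (dist_nonneg (x := ell s) (y := ell s')), ← sq_eq_sq_iff_abs_eq_abs, dist_sq]
  simp [Fin.sum_univ_five, ell]

theorem off_line (x : E 5) (hx : x ∈ zeroSet (P 0)) (hl : ∀ s, x ≠ ell s) :
    (⟨x 0, x 1⟩ : ℂ) ≠ 0 := by
  intro h
  rw [mem_Z0] at hx
  have h0 : x 0 = 0 := by simpa using congrArg Complex.re h
  have h1 : x 1 = 0 := by simpa using congrArg Complex.im h
  rw [h0, h1] at hx
  have h2 : x 2 = 0 := by nlinarith [sq_nonneg (x 2), sq_nonneg (x 3)]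
  have h3 : x 3 = 0 := by nlinarith [sq_nonneg (x 2), sq_nonneg (x 3)]
  apply hl (x 4)
  ext i
  fin_cases i <;> simp [ell, h0, h1, h2, h3]

end Pool.Agent.R230.HZ
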